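import Pool.Agent.Q213.PM.Stm

/-!
Project PM (helper213), job CYL: mapping cylinders.
-/

set_option autoImplicit false

universe u

open CategoryTheory Limits Opposite

namespace Pool.Agent.Q121.PM

open Pool.Agent.Q213.PM

section

variable {A : Type u} [SmallCategory A] (J : Itv A)

/-- the relation -/
inductive R {X Y : Aᵒᵖ ⥤ Type u} (φ : X ⟶ Y) (a : Aᵒᵖ) :
    (Y.obj a ⊕ (X.obj a × J.I.obj a)) → (Y.obj a ⊕ (X.obj a × J.I.obj a)) → Prop
  | mk (x : X.obj a) : R φ a (Sum.inr (x, J.one a.unop)) (Sum.inl (φ.app a x))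

theorem one_map {a b : Aᵒᵖ} (f : a ⟶ b) : J.I.map f (J.one a.unop) = J.one b.unop := J.map_one f.unop

theorem zero_map {a b : Aᵒᵖ} (f : a ⟶ b) : J.I.map f (J.zero a.unop) = J.zero b.unop :=
  J.map_zero f.unop

theorem nat_app {X Y : Aᵒᵖ ⥤ Type u} (φ : X ⟶ Y) {a b : Aᵒᵖ} (f : a ⟶ b) (x : X.obj a) :
    φ.app b (X.map f x) = Y.map f (φ.app a x) := by
  have := congrArg (fun g => g x) (φ.naturality f)
  simp only [types_comp_apply] at this
  exact this

/-- the map on representatives -/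
def cm {X Y : Aᵒᵖ ⥤ Type u} {a b : Aᵒᵖ} (f : a ⟶ b) :
    (Y.obj a ⊕ (X.obj a × J.I.obj a)) → (Y.obj b ⊕ (X.obj b × J.I.obj b))
  | Sum.inl y => Sum.inl (Y.map f y)
  | Sum.inr (x, t) => Sum.inr (X.map f x, J.I.map f t)

/-- the mapping cylinder -/
def cyl {X Y : Aᵒᵖ ⥤ Type u} (φ : X ⟶ Y) : Aᵒᵖ ⥤ Type u where
  obj a := Quot (R J φ a)
  map {a b} f := ↾(Quot.map (cm J f) (by
    rintro _ _ ⟨x⟩
    show R J φ b (Sum.inr (X.map f x, J.I.map f (J.one a.unop))) (Sum.inl (Y.map f (φ.app a x)))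
    rw [one_map, ← nat_app]
    exact R.mk _))
  map_id a := by
    ext z
    induction z using Quot.ind with
    | mk z =>
      rcases z with y | ⟨x, t⟩
      · show Quot.mk _ (Sum.inl (Y.map (𝟙 a) y)) = Quot.mk _ (Sum.inl y)
        rw [Y.map_id]
        rfl
      · show Quot.mk _ (Sum.inr (X.map (𝟙 a) x, J.I.map (𝟙 a) t)) = Quot.mk _ (Sum.inr (x, t))
        rw [X.map_id, J.I.map_id]
        rfl
  map_comp {a b c} f g := by
    ext z
    induction z using Quot.ind with
    | mk z =>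
      rcases z with y | ⟨x, t⟩
      · show Quot.mk _ (Sum.inl (Y.map (f ≫ g) y)) = Quot.mk _ (Sum.inl (Y.map g (Y.map f y)))
        rw [Y.map_comp]
        rfl
      · show Quot.mk _ (Sum.inr (X.map (f ≫ g) x, J.I.map (f ≫ g) t)) =
          Quot.mk _ (Sum.inr (X.map g (X.map f x), J.I.map g (J.I.map f t)))
        rw [X.map_comp, J.I.map_comp]
        rfl

theorem sq_app {X Y X' Y' : Aᵒᵖ ⥤ Type u} {φ : X ⟶ Y} {φ' : X' ⟶ Y'} {l : X ⟶ X'} {r : Y ⟶ Y'}
    (h : l ≫ φ' = φ ≫ r) (a : Aᵒᵖ) (x : X.obj a) : φ'.app a (l.app a x) = r.app a (φ.app a x) := by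
  have := ConcreteCategory.congr_hom (NatTrans.congr_app h a) x
  simp only [NatTrans.comp_app, types_comp_apply] at this
  exact this

/-- the functoriality -/
def am {X Y X' Y' : Aᵒᵖ ⥤ Type u} (l : X ⟶ X') (r : Y ⟶ Y') (a : Aᵒᵖ) :
    (Y.obj a ⊕ (X.obj a × J.I.obj a)) → (Y'.obj a ⊕ (X'.obj a × J.I.obj a))
  | Sum.inl y => Sum.inl (r.app a y)
  | Sum.inr (x, t) => Sum.inr (l.app a x, t)

/-- the map of mapping cylinders -/
def cylMap {X Y X' Y' : Aᵒᵖ ⥤ Type u} (φ : X ⟶ Y) (φ' : X' ⟶ Y') (l : X ⟶ X') (r : Y ⟶ Y')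
    (h : l ≫ φ' = φ ≫ r) : cyl J φ ⟶ cyl J φ' where
  app a := ↾(Quot.map (am J l r a) (by
    rintro _ _ ⟨x⟩
    show R J φ' a (Sum.inr (l.app a x, J.one a.unop)) (Sum.inl (r.app a (φ.app a x)))
    rw [← sq_app h a x]
    exact R.mk _))
  naturality a b f := by
    ext z
    induction z using Quot.ind with
    | mk z =>
      rcases z with y | ⟨x, t⟩
      · show Quot.mk _ (Sum.inl (r.app b (Y.map f y))) = Quot.mk _ (Sum.inl (Y'.map f (r.app a y)))
        rw [nat_app]
      · show Quot.mk _ (Sum.inr (l.app b (X.map f x), J.I.map f t)) =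
          Quot.mk _ (Sum.inr (X'.map f (l.app a x), J.I.map f t))
        rw [nat_app]

/-- the mapping cylinder as a functor -/
def Cyl : Arrow (Aᵒᵖ ⥤ Type u) ⥤ (Aᵒᵖ ⥤ Type u) where
  obj g := cyl J g.hom
  map {g g'} k := cylMap J g.hom g'.hom k.left k.right k.w
  map_id g := by
    ext a z
    induction z using Quot.ind with
    | mk z =>
      rcases z with y | ⟨x, t⟩
      · rfl
      · rfl
  map_comp {g g' g''} k k' := by
    ext a z
    induction z using Quot.ind with
    | mk z =>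
      rcases z with y | ⟨x, t⟩
      · rfl
      · rfl

/-- the inclusion -/
def inc : Arrow.leftFunc ⟶ Cyl J where
  app g := {
    app := fun a => ↾(fun x => Quot.mk _ (Sum.inr (x, J.zero a.unop)))
    naturality := fun a b f => by
      ext x
      show Quot.mk _ (Sum.inr (g.left.map f x, J.zero b.unop)) =
        Quot.mk _ (Sum.inr (g.left.map f x, J.I.map f (J.zero a.unop)))
      rw [zero_map] }
  naturality g g' k := by
    ext a x
    rfl

/-- the projection on representatives -/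
def pm {X Y : Aᵒᵖ ⥤ Type u} (φ : X ⟶ Y) (a : Aᵒᵖ) : (Y.obj a ⊕ (X.obj a × J.I.obj a)) → Y.obj a
  | Sum.inl y => y
  | Sum.inr (x, _) => φ.app a x

/-- the projection of one cylinder -/
def prj1 {X Y : Aᵒᵖ ⥤ Type u} (φ : X ⟶ Y) : cyl J φ ⟶ Y where
  app a := ↾(Quot.lift (pm J φ a) (by
    rintro _ _ ⟨x⟩
    rfl))
  naturality a b f := by
    ext z
    induction z using Quot.ind with
    | mk z =>
      rcases z with y | ⟨x, t⟩
      · rfl
      · show φ.app b (X.map f x) = Y.map f (φ.app a x)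
        rw [nat_app]

/-- the projection -/
def prj : Cyl J ⟶ Arrow.rightFunc where
  app g := prj1 J g.hom
  naturality g g' k := by
    ext a z
    induction z using Quot.ind with
    | mk z =>
      rcases z with y | ⟨x, t⟩
      · rfl
      · show g'.hom.app a (k.left.app a x) = k.right.app a (g.hom.app a x)
        exact sq_app k.w a x

open Classical in
/-- the function which shows that the inclusion is injective -/
noncomputable def opt {X Y : Aᵒᵖ ⥤ Type u} (a : Aᵒᵖ) :
    (Y.obj a ⊕ (X.obj a × J.I.obj a)) → Option (X.obj a)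
  | Sum.inl _ => none
  | Sum.inr (x, t) => if t = J.one a.unop then none else some x

open Classical in
theorem inc_inj (g : Arrow (Aᵒᵖ ⥤ Type u)) (a : Aᵒᵖ) : Function.Injective (((inc J).app g).app a) := by
  intro x x' h
  have h1 : (Quot.mk _ (Sum.inr (x, J.zero a.unop)) : Quot (R J g.hom a)) =
      Quot.mk _ (Sum.inr (x', J.zero a.unop)) := h
  let F : Quot (R J g.hom a) → Option (g.left.obj a) := Quot.lift (opt J a) (by
    rintro _ _ ⟨x⟩
    show (if J.one a.unop = J.one a.unop then none else some x) = none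
    rw [if_pos rfl])
  have h2 := congrArg F h1
  have h3 : (if J.zero a.unop = J.one a.unop then none else some x) =
      (if J.zero a.unop = J.one a.unop then none else some x') := h2
  rw [if_neg (J.ne _), if_neg (J.ne _)] at h3
  exact Option.some_injective _ h3

/-- the homotopy on representatives -/
def hm {X Y : Aᵒᵖ ⥤ Type u} (a : A) (t : J.I.obj (op a)) :
    (Y.obj (op a) ⊕ (X.obj (op a) × J.I.obj (op a))) → (Y.obj (op a) ⊕ (X.obj (op a) × J.I.obj (op a)))
  | Sum.inl y => Sum.inl y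
  | Sum.inr (x, t') => Sum.inr (x, J.sup t' t)

/-- the homotopy -/
def hq {X Y : Aᵒᵖ ⥤ Type u} (φ : X ⟶ Y) (a : A) (z : (cyl J φ).obj (op a)) (t : J.I.obj (op a)) :
    (cyl J φ).obj (op a) :=
  Quot.map (ra := R J φ (op a)) (rb := R J φ (op a)) (hm J a t) (by
    rintro _ _ ⟨x⟩
    show R J φ (op a) (Sum.inr (x, J.sup (J.one a) t)) (Sum.inl (φ.app (op a) x))
    rw [J.one_sup]
    exact R.mk _) z

/-- the section -/
def sct {X Y : Aᵒᵖ ⥤ Type u} (φ : X ⟶ Y) : Y ⟶ cyl J φ where
  app a := ↾(fun y => Quot.mk _ (Sum.inl y))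
  naturality a b f := by
    ext y
    rfl

theorem shr_prj {X Y : Aᵒᵖ ⥤ Type u} (φ : X ⟶ Y) : Shr J (prj1 J φ) := by
  refine ⟨sct J φ, hq J φ, ?_, ?_, ?_, ?_, ?_⟩
  · ext a y
    rfl
  · intro a b f x t
    induction x using Quot.ind with
    | mk z =>
      rcases z with y | ⟨x, t'⟩
      · rfl
      · show Quot.mk _ (Sum.inr (X.map f.op x, J.I.map f.op (J.sup t' t))) =
          Quot.mk _ (Sum.inr (X.map f.op x, J.sup (J.I.map f.op t') (J.I.map f.op t)))
        rw [J.map_sup]
  · intro a x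
    induction x using Quot.ind with
    | mk z =>
      rcases z with y | ⟨x, t'⟩
      · rfl
      · show Quot.mk _ (Sum.inr (x, J.sup t' (J.zero a))) = Quot.mk _ (Sum.inr (x, t'))
        rw [J.sup_zero]
  · intro a x
    induction x using Quot.ind with
    | mk z =>
      rcases z with y | ⟨x, t'⟩
      · rfl
      · show (Quot.mk _ (Sum.inr (x, J.sup t' (J.one a))) : Quot (R J φ (op a))) =
          Quot.mk _ (Sum.inl (φ.app (op a) x))
        rw [J.sup_one]
        exact Quot.sound (R.mk x)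
  · intro a x t
    induction x using Quot.ind with
    | mk z =>
      rcases z with y | ⟨x, t'⟩
      · rfl
      · rfl

end

/-- **CYL** -/
theorem cyl_thm : S_CYL.{u} := by
  intro A _ J
  refine ⟨Cyl J, inc J, prj J, ?_, ?_, ?_⟩
  · intro g
    ext a x
    rfl
  · intro g
    rw [NatTrans.mono_iff_mono_app]
    intro a
    rw [mono_iff_injective]
    exact inc_inj J g a
  · intro g
    exact shr_prj J g.hom

end Pool.Agent.Q121.PM
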