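import Pool.Agent.Q213.PM.Stm

/-!
Project PM (helper213), job LG: Quillen's theorem A for simplicial sets.
-/

set_option autoImplicit false

universe u

open CategoryTheory Limits Opposite Simplicial HomotopicalAlgebra MonoidalCategory
open SSet.modelCategoryQuillen

namespace Pool.Agent.Q121.PM

open Pool.Agent.Q213.PM

attribute [local instance] Cardinal.fact_isRegular_aleph0
  Cardinal.orderBotAleph0OrdToType

theorem smallI : MorphismProperty.IsSmall.{u} SSet.modelCategoryQuillen.I.{u} :=
  MorphismProperty.isSmall_ofHoms ..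

theorem cardI : MorphismProperty.IsCardinalForSmallObjectArgument SSet.modelCategoryQuillen.I.{u}
    Cardinal.aleph0.{u} := by
  have := smallI.{u}
  refine { preservesColimit := ?_ }
  intro A B X Y i hi f hf
  have : IsFinitelyPresentable.{u} A := by
    obtain ⟨n⟩ := hi
    infer_instance
  infer_instance

theorem soaI : MorphismProperty.HasSmallObjectArgument.{u} SSet.modelCategoryQuillen.I.{u} :=
  ⟨.aleph0, inferInstance, inferInstance, cardI⟩

theorem llp_mono : SSet.modelCategoryQuillen.I.{u}.rlp.llp ≤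
    MorphismProperty.monomorphisms SSet.{u} := by
  have := soaI.{u}
  rw [MorphismProperty.llp_rlp_of_hasSmallObjectArgument.{u}, MorphismProperty.retracts_le_iff,
    MorphismProperty.transfiniteCompositions_le_iff, MorphismProperty.pushouts_le_iff,
    MorphismProperty.coproducts_le_iff]
  exact I_le_monomorphisms

theorem fac {E B : SSet.{u}} (p : E ⟶ B) : ∃ (Z : SSet.{u}) (i : E ⟶ Z) (r : Z ⟶ B),
    Mono i ∧ TF r ∧ i ≫ r = p := by
  have := soaI.{u}
  let d := MorphismProperty.factorizationData SSet.modelCategoryQuillen.I.{u}.rlp.llp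
    SSet.modelCategoryQuillen.I.{u}.rlp p
  refine ⟨d.Z, d.i, d.p, llp_mono _ d.hi, ?_, d.fac⟩
  show (MorphismProperty.monomorphisms SSet.{u}).rlp d.p
  rw [SSet.rlp_monomorphisms]
  exact d.hp

theorem pre_pb {X Y : SSet.{u}} (A : X.Subcomplex) (p : Y ⟶ X) :
    IsPullback (A.fromPreimage p) (A.preimage p).ι A.ι p := by
  refine IsPullback.of_isLimit' ⟨A.fromPreimage_ι p⟩ ?_
  have key : ∀ s : PullbackCone A.ι p, SSet.Subcomplex.range s.snd ≤ A.preimage p := by
    intro s n x hx
    obtain ⟨t, rfl⟩ := hx
    have h := congrArg (fun k => k.app n t) s.condition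
    show p.app n (s.snd.app n t) ∈ A.obj n
    have h' : ((s.fst.app n t).1 : X.obj n) = p.app n (s.snd.app n t) := h
    rw [← h']
    exact (s.fst.app n t).2
  refine PullbackCone.IsLimit.mk _ (fun s => SSet.Subcomplex.lift s.snd (key s)) ?_ ?_ ?_
  · intro s
    rw [← cancel_mono A.ι]
    exact s.condition.symm
  · intro s
    rfl
  · intro s m h1 h2
    rw [← cancel_mono (A.preimage p).ι]
    exact h2

/-- **LG** -/
theorem lg (hLGA : S_LGA.{u}) (hMC : S_MC.{u}) (hTFC : S_TFC.{u}) (hSTD : S_STD.{u})
    (hACW : S_ACW.{u}) (hTFW : S_TFW.{u}) (hWC : S_WC.{u}) : S_LG.{u} := by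
  intro E B p h
  obtain ⟨Z, i, r, hi, hr, rfl⟩ := fac p
  have h1 : Ac (SSet.Subcomplex.range i).ι := by
    refine hLGA r _ ?_
    intro n b W fst snd hp
    have hTF : TF snd := MorphismProperty.of_isPullback
      (P := (MorphismProperty.monomorphisms SSet.{u}).rlp) hp hr
    have hW : Contr W := hTFC snd hTF (hSTD n)
    have h2 := (pre_pb (SSet.Subcomplex.range i) fst).paste_vert hp
    have h3 : IsPullback ((SSet.Subcomplex.range i).fromPreimage fst ≫ inv (SSet.Subcomplex.toRange i))
        (((SSet.Subcomplex.range i).preimage fst).ι ≫ snd) (i ≫ r) b := by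
      refine IsPullback.of_iso h2 (Iso.refl _) (asIso (SSet.Subcomplex.toRange i)).symm (Iso.refl _)
        (Iso.refl _) ?_ ?_ ?_ ?_
      · simp
      · simp
      · simp
      · simp
    exact hMC _ inferInstance (h n b _ _ _ h3) hW
  have h4 : Ac i := by
    have : Ac (SSet.Subcomplex.toRange i ≫ (SSet.Subcomplex.range i).ι) := by
      intro K L q hq
      have := h1 q hq
      infer_instance
    exact this
  exact hWC _ _ (hACW i h4) (hTFW r hr)

end Pool.Agent.Q121.PM
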