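import Pool.Agent.Q213.PM.Stm

/-!
Project PM (helper213), job LGA: a local to global principle.
-/

set_option autoImplicit false

universe u

open CategoryTheory Limits Opposite Simplicial HomotopicalAlgebra MonoidalCategory
open SSet.modelCategoryQuillen

namespace Pool.Agent.Q121.PM

open Pool.Agent.Q213.PM

theorem skel_eq (k : ℕ) : (Δ[k] : SSet.{u}).skeleton k = ∂Δ[k] := by
  apply le_antisymm
  · show (⨆ (i : Fin k) (x : (Δ[k] : SSet.{u}).nonDegenerate i), SSet.Subcomplex.ofSimplex x.1) ≤ ∂Δ[k]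
    rw [iSup_le_iff]
    intro i
    rw [iSup_le_iff]
    intro x
    rw [SSet.Subcomplex.ofSimplex_le_iff, SSet.boundary_obj_eq_univ _ _ i.2]
    exact Set.mem_univ _
  · rw [SSet.Subcomplex.le_iff_contains_nonDegenerate]
    intro n x hx
    have hlt : n < k := by
      by_contra hn
      have h1 := SSet.HasDimensionLT.degenerate_eq_top (X := ((∂Δ[k] : (Δ[k] : SSet.{u}).Subcomplex) : SSet.{u}))
        (d := k) n (not_lt.1 hn)
      have h2 : (⟨x.1, hx⟩ : ((∂Δ[k] : (Δ[k] : SSet.{u}).Subcomplex) : SSet.{u}) _⦋n⦌) ∈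
        ((∂Δ[k] : (Δ[k] : SSet.{u}).Subcomplex) : SSet.{u}).degenerate n := by
        rw [h1]
        trivial
      exact x.2 ((SSet.Subcomplex.mem_degenerate_iff _ _).1 h2)
    exact SSet.mem_skeleton _ _ hlt

/-- the hypothesis -/
def HH {Z B : SSet.{u}} (r : Z ⟶ B) (E : Z.Subcomplex) : Prop :=
  ∀ (n : ℕ) (b : Δ[n] ⟶ B) (W : SSet.{u}) (fst : W ⟶ Z) (snd : W ⟶ Δ[n]), IsPullback fst snd r b →
    Ac (E.preimage fst).ι

theorem HH.pull {Z B : SSet.{u}} {r : Z ⟶ B} {E : Z.Subcomplex} (h : HH r E) {B' W : SSet.{u}}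
    (b : B' ⟶ B) (fst : W ⟶ Z) (snd : W ⟶ B') (hp : IsPullback fst snd r b) :
    HH snd (E.preimage fst) := by
  intro n b' W' fst' snd' hp'
  exact h n (b' ≫ b) W' (fst' ≫ fst) snd' (hp'.paste_horiz hp)

/-- the filtration -/
def SF {Z B : SSet.{u}} (r : Z ⟶ B) (E : Z.Subcomplex) : ℕ →o Z.Subcomplex where
  toFun n := E ⊔ (B.skeleton n).preimage r
  monotone' m n h := by
    refine sup_le_sup le_rfl ?_
    intro i x hx
    exact B.skeleton.monotone h i hx

theorem SF_zero {Z B : SSet.{u}} (r : Z ⟶ B) (E : Z.Subcomplex) : SF r E 0 = E := by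
  show E ⊔ (B.skeleton 0).preimage r = E
  rw [SSet.skeleton_zero]
  have : ((⊥ : B.Subcomplex).preimage r) = ⊥ := by
    ext i x
    simp
  rw [this, sup_bot_eq]

theorem ac_comp {X Y Z : SSet.{u}} (f : X ⟶ Y) (g : Y ⟶ Z) (hf : Ac f) (hg : Ac g) : Ac (f ≫ g) := by
  intro K L q hq
  have := hf q hq
  have := hg q hq
  infer_instance

theorem SF_ac {Z B : SSet.{u}} (r : Z ⟶ B) (E : Z.Subcomplex) (k : ℕ)
    (h : ∀ j < k, Ac (SSet.Subcomplex.homOfLE ((SF r E).monotone (Nat.le_succ j)))) :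
    Ac (SSet.Subcomplex.homOfLE ((SF r E).monotone (Nat.zero_le k))) := by
  induction k with
  | zero =>
    intro K L q hq
    have : SSet.Subcomplex.homOfLE ((SF r E).monotone (Nat.zero_le 0)) = 𝟙 _ := rfl
    rw [this]
    infer_instance
  | succ k ih =>
    have h1 := ih (fun j hj => h j (by omega))
    have h2 := h k (by omega)
    have h3 := ac_comp _ _ h1 h2
    exact h3

theorem claim (hC : S_CELL.{u}) (h23 : S_23.{u}) (k : ℕ) : ∀ {Z : SSet.{u}} (r : Z ⟶ Δ[k])
    (E : Z.Subcomplex), HH r E → Ac (E ⊔ ∂Δ[k].preimage r).ι := by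
  induction k using Nat.strong_induction_on with
  | _ k ih =>
    intro Z r E h
    have hstep : ∀ j < k, Ac (SSet.Subcomplex.homOfLE ((SF r E).monotone (Nat.le_succ j))) := by
      intro j hj
      refine hC r E j ?_ ((SF r E).monotone (Nat.le_succ j))
      intro b W fst snd hp
      exact ih j hj snd (E.preimage fst) (h.pull b fst snd hp)
    have h1 := SF_ac r E k hstep
    have h2 : Ac (SF r E 0).ι := by
      rw [SF_zero]
      exact h k (𝟙 _) Z (𝟙 _) r (IsPullback.of_horiz_isIso ⟨by simp⟩)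
    have h3 : Ac (SF r E k).ι := h23 _ _ inferInstance h1 h2
    have h4 : SF r E k = E ⊔ ∂Δ[k].preimage r := by
      show E ⊔ ((Δ[k] : SSet.{u}).skeleton k).preimage r = _
      rw [skel_eq]
    rw [← h4]
    exact h3

/-- **LGA** -/
theorem lga (hC : S_CELL.{u}) (hS : S_SEQ.{u}) (h23 : S_23.{u}) : S_LGA.{u} := by
  intro Z B r E h
  have h1 := hS (SF r E) (fun n => by
    refine hC r E n ?_ ((SF r E).monotone (Nat.le_succ n))
    intro b W fst snd hp
    exact claim hC h23 n snd (E.preimage fst) (HH.pull h b fst snd hp)) (by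
    rw [eq_top_iff]
    intro i x _
    have h2 : x ∈ ((⨆ n, B.skeleton n).preimage r).obj i := by
      rw [SSet.iSup_skeleton]
      trivial
    rw [SSet.Subcomplex.preimage_iSup, Subfunctor.iSup_obj, Set.mem_iUnion] at h2
    obtain ⟨n, hn⟩ := h2
    rw [Subfunctor.iSup_obj, Set.mem_iUnion]
    exact ⟨n, Or.inr hn⟩)
  rw [SF_zero] at h1
  exact h1

end Pool.Agent.Q121.PM
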