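import Pool.Agent.Q213.PM.Stm

/-!
Project PM (helper213), job SM: small closures.
-/

set_option autoImplicit false

universe u

open CategoryTheory Limits

namespace Pool.Agent.Q121.PM

open Pool.Agent.Q213.PM

/-- a family of objects -/
structure Fam (K : Type (u + 1)) : Type (u + 1) where
  I : Type u
  X : I → K

section

variable {K : Type (u + 1)} [Category.{u} K] [HasPushouts K] [HasPullbacks K]
  (Q : ObjectProperty K) (Z : Arrow K ⥤ K)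

/-- the next family -/
noncomputable def step (F : Fam.{u} K) : Fam.{u} K where
  I := F.I ⊕ ((Σ a b c : F.I, {f : F.X a ⟶ F.X b // CQ Q f} × (F.X a ⟶ F.X c)) ⊕
    ((Σ a b c : F.I, {f : F.X b ⟶ F.X a // FQ Q f} × (F.X c ⟶ F.X a)) ⊕
    (Σ a b : F.I, (F.X a ⟶ F.X b))))
  X := Sum.elim F.X (Sum.elim (fun x => pushout x.2.2.2.1.1 x.2.2.2.2)
    (Sum.elim (fun x => pullback x.2.2.2.1.1 x.2.2.2.2) (fun x => Z.obj (Arrow.mk x.2.2))))

/-- the sequence of families -/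
noncomputable def seq (F : Fam.{u} K) : ℕ → Fam.{u} K
  | 0 => F
  | n + 1 => step Q Z (seq F n)

theorem seq_good (hZ : ∀ g : Arrow K, Q g.left → Q g.right → Q (Z.obj g)) (F : Fam.{u} K)
    (hF : ∀ i, Q (F.X i)) : ∀ (n : ℕ) (i : (seq Q Z F n).I), Q ((seq Q Z F n).X i) := by
  intro n
  induction n with
  | zero => exact hF
  | succ n ih =>
    rintro (i | ⟨a, b, c, f, g⟩ | ⟨a, b, c, f, g⟩ | ⟨a, b, f⟩)
    · exact ih i
    · exact f.2.2.2 (ih c) (IsPushout.of_hasPushout f.1 g)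
    · exact f.2.2.2 (ih c) (IsPullback.of_hasPullback f.1 g)
    · exact hZ (Arrow.mk f) (ih a) (ih b)

theorem seq_mono (F : Fam.{u} K) (n : ℕ) (i : (seq Q Z F n).I) (k : ℕ) :
    ∃ i' : (seq Q Z F (n + k)).I, (seq Q Z F (n + k)).X i' = (seq Q Z F n).X i := by
  induction k with
  | zero => exact ⟨i, rfl⟩
  | succ k ih =>
    obtain ⟨i', hi'⟩ := ih
    exact ⟨Sum.inl i', hi'⟩

theorem seq_le (F : Fam.{u} K) {n N : ℕ} (h : n ≤ N) (i : (seq Q Z F n).I) :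
    ∃ i' : (seq Q Z F N).I, (seq Q Z F N).X i' = (seq Q Z F n).X i := by
  obtain ⟨k, rfl⟩ := Nat.exists_eq_add_of_le h
  exact seq_mono Q Z F n i k

/-- the objects of the union of the families -/
noncomputable def obj (F : Fam.{u} K) (x : Σ n : ℕ, (seq Q Z F n).I) : K := (seq Q Z F x.1).X x.2

theorem po (F : Fam.{u} K) (N : ℕ) {A B C : K} (a b c : (seq Q Z F N).I)
    (ha : (seq Q Z F N).X a = A) (hb : (seq Q Z F N).X b = B) (hc : (seq Q Z F N).X c = C)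
    (f : A ⟶ B) (g : A ⟶ C) {P : K} (g' : B ⟶ P) (f' : C ⟶ P) (hf : CQ Q f)
    (h : IsPushout f g g' f') : ∃ m, Nonempty (obj Q Z F m ≅ P) := by
  subst ha
  subst hb
  subst hc
  exact ⟨⟨N + 1, Sum.inr (Sum.inl ⟨a, b, c, ⟨f, hf⟩, g⟩)⟩, ⟨h.isoPushout.symm⟩⟩

theorem pb (F : Fam.{u} K) (N : ℕ) {A B C : K} (a b c : (seq Q Z F N).I)
    (ha : (seq Q Z F N).X a = A) (hb : (seq Q Z F N).X b = B) (hc : (seq Q Z F N).X c = C)
    (f : B ⟶ A) (g : C ⟶ A) {P : K} (g' : P ⟶ B) (f' : P ⟶ C) (hf : FQ Q f)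
    (h : IsPullback g' f' f g) : ∃ m, Nonempty (obj Q Z F m ≅ P) := by
  subst ha
  subst hb
  subst hc
  exact ⟨⟨N + 1, Sum.inr (Sum.inr (Sum.inl ⟨a, b, c, ⟨f, hf⟩, g⟩))⟩, ⟨h.isoPullback.symm⟩⟩

theorem ar (F : Fam.{u} K) (N : ℕ) {A B : K} (a b : (seq Q Z F N).I)
    (ha : (seq Q Z F N).X a = A) (hb : (seq Q Z F N).X b = B)
    (f : A ⟶ B) : ∃ m, Nonempty (obj Q Z F m ≅ Z.obj (Arrow.mk f)) := by
  subst ha
  subst hb
  exact ⟨⟨N + 1, Sum.inr (Sum.inr (Sum.inr ⟨a, b, f⟩))⟩, ⟨Iso.refl _⟩⟩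

end

/-- **SM** -/
theorem sm : S_SM.{u} := by
  intro K _ _ _ Q _ Z hZ J X₀ hX
  let F : Fam.{u} K := ⟨J, X₀⟩
  refine ⟨InducedCategory K (obj Q Z F), inferInstance, inducedFunctor (obj Q Z F),
    inferInstance, inferInstance, ?_, ?_, ?_, ?_, ?_⟩
  · intro m
    exact seq_good Q Z hZ F hX m.1 m.2
  · intro j
    exact ⟨⟨0, j⟩, ⟨Iso.refl _⟩⟩
  · intro a b c f g P g' f' hf h
    obtain ⟨a', ha⟩ := seq_le Q Z F (le_max_left a.1 (max b.1 c.1)) a.2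
    obtain ⟨b', hb⟩ := seq_le Q Z F ((le_max_left b.1 c.1).trans (le_max_right a.1 (max b.1 c.1))) b.2
    obtain ⟨c', hc⟩ := seq_le Q Z F ((le_max_right b.1 c.1).trans (le_max_right a.1 (max b.1 c.1))) c.2
    exact po Q Z F _ a' b' c' ha hb hc f g g' f' hf h
  · intro a b c f g P g' f' hf h
    obtain ⟨a', ha⟩ := seq_le Q Z F (le_max_left a.1 (max b.1 c.1)) a.2
    obtain ⟨b', hb⟩ := seq_le Q Z F ((le_max_left b.1 c.1).trans (le_max_right a.1 (max b.1 c.1))) b.2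
    obtain ⟨c', hc⟩ := seq_le Q Z F ((le_max_right b.1 c.1).trans (le_max_right a.1 (max b.1 c.1))) c.2
    exact pb Q Z F _ a' b' c' ha hb hc f g g' f' hf h
  · intro a b f
    obtain ⟨a', ha⟩ := seq_le Q Z F (le_max_left a.1 b.1) a.2
    obtain ⟨b', hb⟩ := seq_le Q Z F (le_max_right a.1 b.1) b.2
    exact ar Q Z F _ a' b' ha hb f

end Pool.Agent.Q121.PM
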