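import Pool.Agent.Q213.PM.Stm

/-!
Project PM (helper213), job TA: theorem A for the full subcategories of presheaves.
-/

set_option autoImplicit false

universe u

open CategoryTheory Limits Opposite Simplicial HomotopicalAlgebra MonoidalCategory
open SSet.modelCategoryQuillen

namespace Pool.Agent.Q121.PM

open Pool.Agent.Q213.PM

section

variable {A M : Type u} [SmallCategory A] [SmallCategory M] (U : M ⥤ Aᵒᵖ ⥤ Type u)

/-- the projection to `A` -/
def tsnd : Tot U ⥤ A where
  obj x := x.a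
  map f := f.g
  map_id _ := rfl
  map_comp _ _ := rfl

variable (G : A ⥤ M) (e : G ⋙ U ≅ yoneda)

/-- the element of `U (G a) (a)` -/
def el (a : A) : (U.obj (G.obj a)).obj (op a) := (e.inv.app a).app (op a) (𝟙 a)

theorem el_nat {a b : A} (f : a ⟶ b) :
    (U.map (G.map f)).app (op a) (el U G e a) = (U.obj (G.obj b)).map f.op (el U G e b) := by
  have h1 : (e.inv.app b).app (op a) ((yoneda.map f).app (op a) (𝟙 a)) =
      (U.map (G.map f)).app (op a) ((e.inv.app a).app (op a) (𝟙 a)) :=
    congrArg (fun k => k.app (op a) (𝟙 a)) (e.inv.naturality f)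
  have h2 : (e.inv.app b).app (op a) ((yoneda.obj b).map f.op (𝟙 b)) =
      (U.obj (G.obj b)).map f.op ((e.inv.app b).app (op b) (𝟙 b)) :=
    congrArg (fun k => k (𝟙 b)) ((e.inv.app b).naturality f.op)
  have h3 : ((yoneda.map f).app (op a) (𝟙 a) : (yoneda.obj b).obj (op a)) =
      (yoneda.obj b).map f.op (𝟙 b) := by
    show 𝟙 a ≫ f = f ≫ 𝟙 b
    simp
  unfold el
  exact h1.symm.trans ((congrArg _ h3).trans h2)

/-- the functor `A ⥤ Tot U` -/
def ts : A ⥤ Tot U where
  obj a := ⟨G.obj a, a, el U G e a⟩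
  map f := ⟨G.map f, f, el_nat U G e f⟩
  map_id a := Tot.hom_ext (G.map_id a) rfl
  map_comp f g := Tot.hom_ext (G.map_comp f g) rfl

/-- the map `G a ⟶ m` which corresponds to `x` -/
noncomputable def yo [U.Full] [U.Faithful] (y : Tot U) : G.obj y.a ⟶ y.m :=
  U.preimage (e.hom.app y.a ≫ yonedaEquiv.symm y.x)

theorem yo_el [U.Full] [U.Faithful] (y : Tot U) :
    (U.map (yo U G e y)).app (op y.a) (el U G e y.a) = y.x := by
  unfold yo el
  rw [U.map_preimage]
  have h1 : (e.hom.app y.a).app (op y.a) ((e.inv.app y.a).app (op y.a) (𝟙 y.a)) = 𝟙 y.a :=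
    congrArg (fun k => (k.app y.a).app (op y.a) (𝟙 y.a)) e.inv_hom_id
  show (yonedaEquiv.symm y.x).app (op y.a)
    ((e.hom.app y.a).app (op y.a) ((e.inv.app y.a).app (op y.a) (𝟙 y.a))) = y.x
  rw [h1]
  exact yonedaEquiv.apply_symm_apply y.x

/-- maps out of `G a` are determined by the image of `el a` -/
theorem yo_uniq [U.Full] [U.Faithful] {a : A} {m : M} (f g : G.obj a ⟶ m)
    (h : (U.map f).app (op a) (el U G e a) = (U.map g).app (op a) (el U G e a)) : f = g := by
  apply U.map_injective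
  have : e.inv.app a ≫ U.map f = e.inv.app a ≫ U.map g := by
    apply yonedaEquiv.injective
    exact h
  exact (cancel_epi _).1 this

/-- the transformation to the identity -/
noncomputable def tnt [U.Full] [U.Faithful] : tsnd U ⋙ ts U G e ⟶ 𝟭 (Tot U) where
  app y := ⟨yo U G e y, 𝟙 _, by
    show (U.map (yo U G e y)).app (op y.a) (el U G e y.a) = (U.obj y.m).map (𝟙 (op y.a)) y.x
    rw [yo_el, (U.obj y.m).map_id]
    rfl⟩
  naturality {y z} f := by
    refine Tot.hom_ext ?_ ?_
    · show G.map f.g ≫ yo U G e z = yo U G e y ≫ f.f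
      apply yo_uniq U G e
      have h1 : (U.map (G.map f.g ≫ yo U G e z)).app (op y.a) (el U G e y.a) =
          (U.map (yo U G e z)).app (op y.a) ((U.map (G.map f.g)).app (op y.a) (el U G e y.a)) := by
        rw [U.map_comp]
        rfl
      have h2 : (U.map (yo U G e y ≫ f.f)).app (op y.a) (el U G e y.a) =
          (U.map f.f).app (op y.a) ((U.map (yo U G e y)).app (op y.a) (el U G e y.a)) := by
        rw [U.map_comp]
        rfl
      have h3 : (U.map (yo U G e z)).app (op y.a) ((U.obj (G.obj z.a)).map f.g.op (el U G e z.a)) =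
          (U.obj z.m).map f.g.op ((U.map (yo U G e z)).app (op z.a) (el U G e z.a)) :=
        congrArg (fun k => k (el U G e z.a)) ((U.map (yo U G e z)).naturality f.g.op)
      have h4 : (U.map f.f).app (op y.a) y.x = (U.obj z.m).map f.g.op z.x := f.w
      rw [h1, h2, el_nat U G e f.g, yo_el]
      refine h3.trans ?_
      rw [yo_el]
      exact h4.symm
    · show f.g ≫ 𝟙 _ = 𝟙 _ ≫ f.g
      simp

end

/-- **TA** -/
theorem ta (hTOT : S_TOT.{u}) (hLG : S_LG.{u}) (hZW : S_ZW.{u}) (hWC : S_WC.{u}) : S_TA.{u} := by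
  intro A M _ _ U _ _ G e hU
  have h1 : WeakEq (nerveMap (Tot.fst U)) := hLG _ (hTOT U hU)
  have h2 : WeakEq (nerveMap (ts U G e)) := by
    refine hZW (ts U G e) (tsnd U) ?_ ?_
    · exact Relation.ReflTransGen.refl
    · exact Zigzag.of_hom (tnt U G e)
  exact hWC _ _ h2 h1

end Pool.Agent.Q121.PM
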